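import Pool.Agent.H867.FT.Gen2
import Pool.Agent.H707.FT867PSG

/-! Task FTQ GRD of helper867 (MP_7dd379_ag): powers of the maximal ideal of `k[[X]]` modulo two
series. -/

set_option autoImplicit false

namespace Pool.Agent.H53.FT867

open Ideal

section Abstract

variable {A : Type} [CommRing A]

theorem sup_pow_sharp (I J : Ideal A) (n m : ℕ) :
    (I ⊔ J) ^ (n + m + 1) ≤ I ^ (n + 1) ⊔ J ^ (m + 1) := by
  rw [← Ideal.add_eq_sup, ← Ideal.add_eq_sup, add_pow, Ideal.sum_eq_sup]
  apply Finset.sup_le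
  intro i hi
  by_cases hn : n + 1 ≤ i
  · exact (Ideal.mul_le_left.trans (Ideal.mul_le_left.trans
      ((Ideal.pow_le_pow_right hn).trans le_sup_left)))
  · refine (Ideal.mul_le_left.trans (Ideal.mul_le_right.trans
      ((Ideal.pow_le_pow_right ?_).trans le_sup_right)))
    omega

theorem pigeon (q : ℕ) (hq : 1 ≤ q) : ∀ (d : ℕ) (x : Fin d → A),
    Ideal.span (Set.range x) ^ (d * (q - 1) + 1) ≤ Ideal.span (Set.range fun i => x i ^ q)
  | 0, x => by
    rw [zero_mul, zero_add, pow_one, Ideal.span_le]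
    rintro _ ⟨i, _⟩
    exact i.elim0
  | d + 1, x => by
    have ih := pigeon q hq d (fun i => x i.succ)
    have h1 : Ideal.span (Set.range x) ≤
        Ideal.span {x 0} ⊔ Ideal.span (Set.range fun i : Fin d => x i.succ) := by
      rw [Ideal.span_le]
      rintro _ ⟨i, rfl⟩
      refine Fin.cases ?_ (fun i => ?_) i
      · exact Ideal.mem_sup_left (Ideal.mem_span_singleton_self _)
      · exact Ideal.mem_sup_right (Ideal.subset_span ⟨i, rfl⟩)
    have h2 : (d + 1) * (q - 1) + 1 = (q - 1) + d * (q - 1) + 1 := by ring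
    rw [h2]
    refine (Ideal.pow_right_mono h1 _).trans ((sup_pow_sharp _ _ _ _).trans (sup_le ?_ ?_))
    · rw [Nat.sub_add_cancel hq, Ideal.span_singleton_pow, Ideal.span_le, Set.singleton_subset_iff]
      exact Ideal.subset_span ⟨0, rfl⟩
    · refine ih.trans (Ideal.span_mono ?_)
      rintro _ ⟨i, rfl⟩
      exact ⟨i.succ, rfl⟩

theorem pow_decomp (m E : Ideal A) (y z : A) (hz : z ∈ m)
    (hm : m ≤ E ⊔ span {y} ⊔ span {z}) (n : ℕ) :
    m ^ (n + 1) ≤ E * m ^ n ⊔ span {y} * m ^ n ⊔ span {z ^ (n + 1)} := by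
  have hz' : span {z} ≤ m := by
    rw [Ideal.span_le, Set.singleton_subset_iff]; exact hz
  induction n with
  | zero => simpa using hm
  | succ n ih =>
    calc m ^ (n + 1 + 1) = m * m ^ (n + 1) := pow_succ' _ _
      _ ≤ (E ⊔ span {y} ⊔ span {z}) * m ^ (n + 1) := Ideal.mul_mono_left hm
      _ = E * m ^ (n + 1) ⊔ span {y} * m ^ (n + 1) ⊔ span {z} * m ^ (n + 1) := by
        rw [Ideal.sup_mul, Ideal.sup_mul]
      _ ≤ E * m ^ (n + 1) ⊔ span {y} * m ^ (n + 1) ⊔ span {z ^ (n + 1 + 1)} := by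
        refine sup_le le_sup_left ?_
        refine (Ideal.mul_mono_right ih).trans ?_
        rw [Ideal.mul_sup, Ideal.mul_sup]
        refine sup_le (sup_le ?_ ?_) ?_
        · refine le_sup_of_le_left (le_sup_of_le_left ?_)
          rw [mul_left_comm, pow_succ' m n]
          exact Ideal.mul_mono_right (Ideal.mul_mono_left hz')
        · refine le_sup_of_le_left (le_sup_of_le_right ?_)
          rw [mul_left_comm, pow_succ' m n]
          exact Ideal.mul_mono_right (Ideal.mul_mono_left hz')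
        · refine le_sup_of_le_right ?_
          rw [Ideal.span_singleton_mul_span_singleton, ← pow_succ']

theorem step (m E : Ideal A) (y z c₁ c' : A) (a b : ℕ) (hy : y ∈ m) (hz : z ∈ m)
    (hm : m ≤ E ⊔ span {y} ⊔ span {z})
    (h1 : z ^ (a + 1) ∈ span {c₁} ⊔ (E * m ^ a ⊔ span {y} * m ^ a))
    (h2 : y ^ (b + 1) ∈ span {c'} ⊔ E * m ^ b ⊔ m ^ (b + 2)) :
    m ^ (a + b + 2) ≤ (span {c₁, c'} ⊔ E * m ^ (a + b + 1)) ⊔ m ^ (a + b + 3) := by
  have hz' : span {z} ≤ m := by
    rw [Ideal.span_le, Set.singleton_subset_iff]; exact hz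
  have hy' : span {y} ≤ m := by
    rw [Ideal.span_le, Set.singleton_subset_iff]; exact hy
  have hc₁ : span {c₁} ≤ span {c₁, c'} := Ideal.span_mono (by simp)
  have hc' : span {c'} ≤ span {c₁, c'} := Ideal.span_mono (by simp)
  have hypow : ∀ i : ℕ, span {y ^ i} ≤ m ^ i := by
    intro i
    rw [← Ideal.span_singleton_pow]
    exact Ideal.pow_right_mono hy' i
  have hzpow : ∀ i : ℕ, span {z ^ i} ≤ m ^ i := by
    intro i
    rw [← Ideal.span_singleton_pow]
    exact Ideal.pow_right_mono hz' i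
  have key : ∀ n : ℕ, a + 1 ≤ n → ∀ i : ℕ, i + n = a + b + 2 →
      span {y ^ i} * m ^ n ≤ (span {c₁, c'} ⊔ E * m ^ (a + b + 1)) ⊔ m ^ (a + b + 3) := by
    intro n hn
    induction n, hn using Nat.le_induction with
    | base =>
      intro i hi
      have hi' : i = b + 1 := by omega
      subst hi'
      have h3 : span {y ^ (b + 1)} ≤ span {c'} ⊔ E * m ^ b ⊔ m ^ (b + 2) := by
        rw [Ideal.span_le, Set.singleton_subset_iff]; exact h2
      refine (Ideal.mul_mono_left h3).trans ?_
      rw [Ideal.sup_mul, Ideal.sup_mul]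
      refine sup_le (sup_le ?_ ?_) ?_
      · exact le_sup_of_le_left (le_sup_of_le_left (Ideal.mul_le_left.trans hc'))
      · refine le_sup_of_le_left (le_sup_of_le_right ?_)
        rw [mul_assoc, ← pow_add]
        have : b + (a + 1) = a + b + 1 := by ring
        rw [this]
      · refine le_sup_of_le_right ?_
        rw [← pow_add]
        have : b + 2 + (a + 1) = a + b + 3 := by ring
        rw [this]
    | succ n hn ih =>
      intro i hi
      have hin : i + n = a + b + 1 := by omega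
      have ihn := ih (i + 1) (by omega)
      refine (Ideal.mul_mono_right (pow_decomp m E y z hz hm n)).trans ?_
      rw [Ideal.mul_sup, Ideal.mul_sup]
      refine sup_le (sup_le ?_ ?_) ?_
      · refine le_sup_of_le_left (le_sup_of_le_right ?_)
        rw [mul_left_comm, ← hin, pow_add]
        exact Ideal.mul_mono_right (Ideal.mul_mono_left (hypow i))
      · rw [← mul_assoc, Ideal.span_singleton_mul_span_singleton, ← pow_succ]
        exact ihn
      · obtain ⟨s, hs⟩ : ∃ s, n = a + s := ⟨n - a, by omega⟩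
        have h3 : span {z ^ (a + 1)} ≤ span {c₁} ⊔ (E * m ^ a ⊔ span {y} * m ^ a) := by
          rw [Ideal.span_le, Set.singleton_subset_iff]; exact h1
        have h4 : span {z ^ (n + 1)} = span {z ^ s} * span {z ^ (a + 1)} := by
          rw [Ideal.span_singleton_mul_span_singleton, ← pow_add]
          have : n + 1 = s + (a + 1) := by omega
          rw [this]
        rw [h4]
        refine (Ideal.mul_mono_right (Ideal.mul_mono (hzpow s) h3)).trans ?_
        rw [Ideal.mul_sup, Ideal.mul_sup, Ideal.mul_sup, Ideal.mul_sup]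
        refine sup_le ?_ (sup_le ?_ ?_)
        · exact le_sup_of_le_left (le_sup_of_le_left
            ((Ideal.mul_le_right.trans Ideal.mul_le_right).trans hc₁))
        · refine le_sup_of_le_left (le_sup_of_le_right ?_)
          have e1 : span {y ^ i} * (m ^ s * (E * m ^ a)) =
              E * (span {y ^ i} * (m ^ s * m ^ a)) := by ring
          rw [e1, ← pow_add, ← hin, pow_add m i n, hs, add_comm s a]
          exact Ideal.mul_mono_right (Ideal.mul_mono_left (hypow i))
        · have e1 : span {y ^ i} * (m ^ s * (span {y} * m ^ a)) =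
              (span {y ^ i} * span {y}) * (m ^ a * m ^ s) := by ring
          rw [e1, ← pow_add, ← hs, Ideal.span_singleton_mul_span_singleton, ← pow_succ]
          exact ihn
  have := key (a + b + 2) (by omega) 0 (by omega)
  simpa using this

theorem final (m E : Ideal A) (y z c₁ c' : A) (a b : ℕ) (hy : y ∈ m) (hz : z ∈ m)
    (hm : m ≤ E ⊔ span {y} ⊔ span {z}) (hfg : m.FG) (hjac : m ≤ Ideal.jacobson ⊥)
    (h1 : z ^ (a + 1) ∈ span {c₁} ⊔ (E * m ^ a ⊔ span {y} * m ^ a))
    (h2 : y ^ (b + 1) ∈ span {c'} ⊔ E * m ^ b ⊔ m ^ (b + 2)) (j : ℕ) :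
    m ^ (a + b + 2 + j) ≤ span {c₁, c'} ⊔ E ^ (j + 1) * m ^ (a + b + 1) := by
  have h3 : m ^ (a + b + 2) ≤ span {c₁, c'} ⊔ E * m ^ (a + b + 1) := by
    refine Submodule.le_of_le_smul_of_le_jacobson_bot (I := m) (Ideal.FG.pow hfg) hjac ?_
    have := step m E y z c₁ c' a b hy hz hm h1 h2
    rw [smul_eq_mul, ← pow_succ']
    exact this
  induction j with
  | zero => simpa using h3
  | succ j ih =>
    calc m ^ (a + b + 2 + (j + 1)) = m * m ^ (a + b + 2 + j) := by
          rw [← pow_succ']; ring_nf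
      _ ≤ m * (span {c₁, c'} ⊔ E ^ (j + 1) * m ^ (a + b + 1)) := Ideal.mul_mono_right ih
      _ = m * span {c₁, c'} ⊔ E ^ (j + 1) * m ^ (a + b + 2) := by
          rw [Ideal.mul_sup, mul_left_comm, ← pow_succ']
      _ ≤ span {c₁, c'} ⊔ E ^ (j + 1) * (span {c₁, c'} ⊔ E * m ^ (a + b + 1)) :=
          sup_le_sup Ideal.mul_le_right (Ideal.mul_mono_right h3)
      _ ≤ span {c₁, c'} ⊔ E ^ (j + 1 + 1) * m ^ (a + b + 1) := by
          rw [Ideal.mul_sup, ← mul_assoc, ← pow_succ]
          exact sup_le le_sup_left (sup_le (le_sup_of_le_left Ideal.mul_le_right) le_sup_right)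

end Abstract

section Series

open MvPowerSeries Pool.Agent.H707.FT867

variable {k : Type} [Field k]

theorem coeff_of_mem_span {D : ℕ} {ι : Type} (s : ι → Fin D) (f : MvPowerSeries (Fin D) k)
    (hf : f ∈ Ideal.span (Set.range fun i => (X (s i) : MvPowerSeries (Fin D) k))) :
    ∀ n : Fin D →₀ ℕ, (∀ i, n (s i) = 0) → coeff n f = 0 := by
  classical
  refine Submodule.span_induction ?_ ?_ ?_ ?_ hf
  · rintro _ ⟨i, rfl⟩ n hn
    rw [coeff_X, if_neg]
    rintro rfl
    have := hn i
    rw [Finsupp.single_eq_same] at this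
    exact one_ne_zero this
  · intro n _
    exact map_zero _
  · intro x y _ _ hx hy n hn
    rw [map_add, hx n hn, hy n hn, add_zero]
  · intro a x _ hx n hn
    rw [smul_eq_mul, coeff_mul]
    refine Finset.sum_eq_zero fun p hp => ?_
    rw [Finset.HasAntidiagonal.mem_antidiagonal] at hp
    rw [hx p.2, mul_zero]
    intro i
    have h1 := hn i
    rw [← hp, Finsupp.add_apply] at h1
    omega

variable {d : ℕ}

/-- the variables `X_j`, `j < d`, of `d + 2` variables -/
abbrev jj (j : Fin d) : Fin (d + 2) := j.castSucc.castSucc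

/-- the index of the last but one variable -/
abbrev yi (d : ℕ) : Fin (d + 2) := (Fin.last d).castSucc

/-- the index of the last variable -/
abbrev zi (d : ℕ) : Fin (d + 2) := Fin.last (d + 1)

theorem jj_ne_yi (j : Fin d) : jj j ≠ yi d := by
  intro h
  have := congrArg Fin.val h
  simp only [jj, yi, Fin.val_castSucc, Fin.val_last] at this
  omega

theorem jj_lt_yi (j : Fin d) : jj j < yi d := by
  rw [Fin.lt_def]
  simp only [jj, yi, Fin.val_castSucc, Fin.val_last]
  omega

theorem jj_ne_zi (j : Fin d) : jj j ≠ zi d := by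
  intro h
  have := congrArg Fin.val h
  simp only [jj, zi, Fin.val_castSucc, Fin.val_last] at this
  omega

theorem jj_lt_zi (j : Fin d) : jj j < zi d := by
  rw [Fin.lt_def]
  simp only [jj, zi, Fin.val_castSucc, Fin.val_last]
  omega

theorem yi_ne_zi : yi d ≠ zi d := by
  intro h
  have := congrArg Fin.val h
  simp only [yi, zi, Fin.val_castSucc, Fin.val_last] at this
  omega

theorem pure_eq (n : Fin (d + 2) →₀ ℕ) (hn : ∀ j : Fin d, n (jj j) = 0) :
    n = Finsupp.single (yi d) (n (yi d)) + Finsupp.single (zi d) (n (zi d)) := by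
  ext i
  rw [Finsupp.add_apply]
  refine Fin.lastCases ?_ (fun i => Fin.lastCases ?_ (fun i => ?_) i) i
  · rw [Finsupp.single_eq_of_ne (yi_ne_zi (d := d)).symm, Finsupp.single_eq_same, zero_add]
  · rw [Finsupp.single_eq_same, Finsupp.single_eq_of_ne (yi_ne_zi (d := d)), add_zero]
  · rw [Finsupp.single_eq_of_ne (jj_ne_yi i), Finsupp.single_eq_of_ne (jj_ne_zi i)]
    exact hn i

/-- the ideal of the first `d` variables -/
noncomputable abbrev EE (k : Type) [Field k] (d : ℕ) : Ideal (MvPowerSeries (Fin (d + 2)) k) :=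
  Ideal.span (Set.range fun j : Fin d => (X (jj j) : MvPowerSeries (Fin (d + 2)) k))

theorem max_le : IsLocalRing.maximalIdeal (MvPowerSeries (Fin (d + 2)) k) ≤
    EE k d ⊔ span {X (yi d)} ⊔ span {X (zi d)} := by
  rw [(psg k (d + 2)).1, Ideal.span_le]
  rintro _ ⟨i, rfl⟩
  refine Fin.lastCases ?_ (fun i => Fin.lastCases ?_ (fun i => ?_) i) i
  · exact Ideal.mem_sup_right (Ideal.mem_span_singleton_self _)
  · exact Ideal.mem_sup_left (Ideal.mem_sup_right (Ideal.mem_span_singleton_self _))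
  · exact Ideal.mem_sup_left (Ideal.mem_sup_left (Ideal.subset_span ⟨i, rfl⟩))

theorem fg_max : (IsLocalRing.maximalIdeal (MvPowerSeries (Fin (d + 2)) k)).FG := by
  rw [(psg k (d + 2)).1]
  exact Submodule.fg_span (Set.finite_range _)

/-- The first hypothesis of `final`. -/
theorem hyp1 (a : ℕ) (c₁ : MvPowerSeries (Fin (d + 2)) k)
    (hc : c₁ ∈ IsLocalRing.maximalIdeal (MvPowerSeries (Fin (d + 2)) k) ^ (a + 1))
    (h0 : coeff (Finsupp.single (zi d) (a + 1)) c₁ ≠ 0) :
    (X (zi d) : MvPowerSeries (Fin (d + 2)) k) ^ (a + 1) ∈ span {c₁} ⊔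
      (EE k d * IsLocalRing.maximalIdeal (MvPowerSeries (Fin (d + 2)) k) ^ a ⊔
        span {X (yi d)} * IsLocalRing.maximalIdeal (MvPowerSeries (Fin (d + 2)) k) ^ a) := by
  classical
  have h1 := pow_decomp _ (EE k d) (X (yi d)) (X (zi d)) (X_mem _) max_le a hc
  obtain ⟨w, hw, v, hv, hwv⟩ := Submodule.mem_sup.1 h1
  obtain ⟨g, hg⟩ := Ideal.mem_span_singleton'.1 hv
  obtain ⟨w1, hw1, w2, hw2, hww⟩ := Submodule.mem_sup.1 hw
  have e1 : coeff (Finsupp.single (zi d) (a + 1)) w1 = 0 := by
    refine coeff_of_mem_span jj w1 (Ideal.mul_le_left hw1) _ fun i => ?_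
    exact Finsupp.single_eq_of_ne (jj_ne_zi i)
  have e2 : coeff (Finsupp.single (zi d) (a + 1)) w2 = 0 := by
    obtain ⟨t, ht⟩ := Ideal.mem_span_singleton'.1 (Ideal.mul_le_left hw2)
    rw [← ht, mul_comm, coeff_X_mul, if_neg]
    intro h
    rw [Finsupp.single_le_iff, Finsupp.single_eq_of_ne (yi_ne_zi (d := d))] at h
    omega
  have e3 : coeff (Finsupp.single (zi d) (a + 1)) v = constantCoeff g := by
    rw [← hg, X_pow_eq]
    have := coeff_add_mul_monomial (R := k) (m := 0) (n := Finsupp.single (zi d) (a + 1)) (φ := g) 1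
    rw [zero_add, mul_one] at this
    exact this
  have hunit : IsUnit g := by
    rw [isUnit_iff_constantCoeff, isUnit_iff_ne_zero, ← e3]
    intro h
    apply h0
    rw [← hwv, ← hww, map_add, map_add, e1, e2, h, add_zero, add_zero]
  obtain ⟨u, hu⟩ := hunit
  have e4 : (X (zi d) : MvPowerSeries (Fin (d + 2)) k) ^ (a + 1) =
      (↑u⁻¹ : MvPowerSeries (Fin (d + 2)) k) * c₁ +
        -((↑u⁻¹ : MvPowerSeries (Fin (d + 2)) k) * w) := by
    have : v = c₁ - w := by rw [← hwv]; ring
    have h2 : (↑u : MvPowerSeries (Fin (d + 2)) k) * X (zi d) ^ (a + 1) = c₁ - w := by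
      rw [hu, hg, this]
    rw [← Units.inv_mul_cancel_left u (X (zi d) ^ (a + 1) : MvPowerSeries (Fin (d + 2)) k), h2]
    ring
  rw [e4]
  exact Ideal.add_mem _ (Ideal.mem_sup_left (Ideal.mul_mem_left _ _ (Ideal.mem_span_singleton_self _)))
    (Ideal.mem_sup_right (neg_mem (Ideal.mul_mem_left _ _ hw)))

/-- The second hypothesis of `final`. -/
theorem hyp2 (b : ℕ) (c' : MvPowerSeries (Fin (d + 2)) k)
    (hc : c' ∈ IsLocalRing.maximalIdeal (MvPowerSeries (Fin (d + 2)) k) ^ (b + 1))
    (h0 : coeff (Finsupp.single (yi d) (b + 1)) c' ≠ 0)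
    (h1 : ∀ i j : ℕ, i + j = b + 1 → j ≠ 0 →
      coeff (Finsupp.single (yi d) i + Finsupp.single (zi d) j) c' = 0) :
    (X (yi d) : MvPowerSeries (Fin (d + 2)) k) ^ (b + 1) ∈ span {c'} ⊔
      EE k d * IsLocalRing.maximalIdeal (MvPowerSeries (Fin (d + 2)) k) ^ b ⊔
        IsLocalRing.maximalIdeal (MvPowerSeries (Fin (d + 2)) k) ^ (b + 2) := by
  classical
  have hord := order_of_mem _ _ hc
  have hconst : constantCoeff c' = 0 := by
    have : c' ∈ IsLocalRing.maximalIdeal (MvPowerSeries (Fin (d + 2)) k) :=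
      Ideal.pow_le_self (Nat.succ_ne_zero b) hc
    exact mem_max.1 this
  set g : MvPowerSeries (Fin (d + 2)) k := ∑ j : Fin d, X (jj j) * part c' (jj j) with hg
  have hgmem : g ∈ EE k d * IsLocalRing.maximalIdeal (MvPowerSeries (Fin (d + 2)) k) ^ b := by
    refine Ideal.sum_mem _ fun j _ => Ideal.mul_mem_mul (Ideal.subset_span ⟨j, rfl⟩) ?_
    exact mem_pow b _ (le_order_part c' b hord _)
  have hsplit : c' = g + X (yi d) * part c' (yi d) + X (zi d) * part c' (zi d) := by
    conv_lhs => rw [sum_part c' hconst, Fin.sum_univ_castSucc, Fin.sum_univ_castSucc]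
  have hpure : ∀ n : Fin (d + 2) →₀ ℕ, (∀ j : Fin d, n (jj j) = 0) →
      coeff n (c' - g) = coeff n c' := by
    intro n hn
    rw [map_sub, coeff_of_mem_span jj g (Ideal.mul_le_left hgmem) n hn, sub_zero]
  have hnon : ∀ n : Fin (d + 2) →₀ ℕ, (∃ j : Fin d, n (jj j) ≠ 0) → coeff n (c' - g) = 0 := by
    rintro n ⟨j, hj⟩
    have e : c' - g = X (yi d) * part c' (yi d) + X (zi d) * part c' (zi d) := by
      conv_lhs => rw [hsplit]
      ring
    rw [e, map_add, coeff_X_mul, coeff_X_mul]
    have z1 : (if Finsupp.single (yi d) 1 ≤ n then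
        coeff (n - Finsupp.single (yi d) 1) (part c' (yi d)) else 0) = 0 := by
      split_ifs
      · rw [coeff_part, if_neg]
        intro h
        have := h (jj j) (jj_lt_yi j)
        rw [Finsupp.coe_tsub, Pi.sub_apply, Finsupp.single_eq_of_ne (jj_ne_yi j), Nat.sub_zero] at this
        exact hj this
      · rfl
    have z2 : (if Finsupp.single (zi d) 1 ≤ n then
        coeff (n - Finsupp.single (zi d) 1) (part c' (zi d)) else 0) = 0 := by
      split_ifs
      · rw [coeff_part, if_neg]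
        intro h
        have := h (jj j) (jj_lt_zi j)
        rw [Finsupp.coe_tsub, Pi.sub_apply, Finsupp.single_eq_of_ne (jj_ne_zi j), Nat.sub_zero] at this
        exact hj this
      · rfl
    rw [z1, z2, add_zero]
  set u : k := coeff (Finsupp.single (yi d) (b + 1)) c' with hu
  set r : MvPowerSeries (Fin (d + 2)) k := c' - g - C u * X (yi d) ^ (b + 1) with hr
  have hrmem : r ∈ IsLocalRing.maximalIdeal (MvPowerSeries (Fin (d + 2)) k) ^ (b + 2) := by
    refine mem_pow _ r (nat_le_order fun n hn => ?_)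
    rw [hr, map_sub, coeff_C_mul, coeff_X_pow]
    by_cases hp : ∀ j : Fin d, n (jj j) = 0
    · rw [hpure n hp]
      have hn' := pure_eq n hp
      have hdeg : n.degree = n (yi d) + n (zi d) := by
        conv_lhs => rw [hn']
        rw [map_add, Finsupp.degree_single, Finsupp.degree_single]
      by_cases hd : n.degree < b + 1
      · rw [if_neg, mul_zero, sub_zero]
        · refine coeff_of_lt_order (lt_of_lt_of_le ?_ hord)
          exact_mod_cast hd
        · rintro rfl
          rw [Finsupp.degree_single] at hd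
          exact lt_irrefl _ hd
      · have hd' : n (yi d) + n (zi d) = b + 1 := by omega
        by_cases hz : n (zi d) = 0
        · have hyy : n (yi d) = b + 1 := by omega
          have hnn : n = Finsupp.single (yi d) (b + 1) := by
            rw [hn', hz, hyy, Finsupp.single_zero, add_zero]
          rw [if_pos hnn, mul_one, hnn, ← hu, sub_self]
        · rw [if_neg, mul_zero, sub_zero, hn']
          · exact h1 _ _ hd' hz
          · intro h
            apply hz
            rw [h]
            exact Finsupp.single_eq_of_ne (yi_ne_zi (d := d)).symm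
    · push Not at hp
      rw [hnon n hp, if_neg, mul_zero, sub_zero]
      rintro rfl
      obtain ⟨j, hj⟩ := hp
      exact hj (Finsupp.single_eq_of_ne (jj_ne_yi j))
  have e4 : (X (yi d) : MvPowerSeries (Fin (d + 2)) k) ^ (b + 1) =
      C u⁻¹ * c' + -(C u⁻¹ * g) + -(C u⁻¹ * r) := by
    have h2 : C u * (X (yi d) : MvPowerSeries (Fin (d + 2)) k) ^ (b + 1) = c' - g - r := by
      rw [hr]; ring
    have h3 : (C u⁻¹ : MvPowerSeries (Fin (d + 2)) k) * C u = 1 := by
      rw [← map_mul, inv_mul_cancel₀ h0, map_one]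
    calc (X (yi d) : MvPowerSeries (Fin (d + 2)) k) ^ (b + 1)
        = (C u⁻¹ * C u) * X (yi d) ^ (b + 1) := by rw [h3, one_mul]
      _ = C u⁻¹ * (C u * X (yi d) ^ (b + 1)) := by ring
      _ = C u⁻¹ * c' + -(C u⁻¹ * g) + -(C u⁻¹ * r) := by rw [h2]; ring
  rw [e4]
  exact Ideal.add_mem _ (Ideal.add_mem _
    (Ideal.mem_sup_left (Ideal.mem_sup_left
      (Ideal.mul_mem_left _ _ (Ideal.mem_span_singleton_self _))))
    (Ideal.mem_sup_left (Ideal.mem_sup_right (neg_mem (Ideal.mul_mem_left _ _ hgmem)))))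
    (Ideal.mem_sup_right (neg_mem (Ideal.mul_mem_left _ _ hrmem)))

theorem grd : Pool.Agent.H867.FT.S_GRD := by
  intro k _ d e₁ e₂ q c₁ c' hq hc₁ h₁ hc' h₂ h₃
  have top_of_unit : ∀ (i : Fin (d + 2)) (f : MvPowerSeries (Fin (d + 2)) k),
      coeff (Finsupp.single i 0) f ≠ 0 → f ∈ Ideal.span {c₁, c'} →
      (⊤ : Ideal (MvPowerSeries (Fin (d + 2)) k)) ≤ Ideal.span {c₁, c'} := by
    intro i f hf hmem
    rw [Finsupp.single_zero] at hf
    have hu : IsUnit f := by
      rw [isUnit_iff_constantCoeff, isUnit_iff_ne_zero]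
      exact hf
    exact (Ideal.eq_top_of_isUnit_mem _ hmem hu).ge
  rcases e₁ with _ | a
  · exact le_top.trans ((top_of_unit _ c₁ h₁ (Ideal.subset_span (by simp))).trans le_sup_left)
  rcases e₂ with _ | b
  · exact le_top.trans ((top_of_unit _ c' h₂ (Ideal.subset_span (by simp))).trans le_sup_left)
  have hfin := final (IsLocalRing.maximalIdeal (MvPowerSeries (Fin (d + 2)) k)) (EE k d)
    (X (yi d)) (X (zi d)) c₁ c' a b (X_mem _) (X_mem _) max_le fg_max
    (IsLocalRing.maximalIdeal_le_jacobson _) (hyp1 a c₁ hc₁ h₁) (hyp2 b c' hc' h₂ h₃)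
    (d * (q - 1))
  have e : a + 1 + (b + 1) + 1 + d * (q - 1) = (a + b + 2 + d * (q - 1)) + 1 := by ring
  rw [e]
  refine (Ideal.pow_le_pow_right (Nat.le_succ _)).trans (hfin.trans (sup_le_sup_left ?_ _))
  refine Ideal.mul_le_left.trans ((pigeon q hq d fun j => X (jj j)).trans (Ideal.span_mono ?_))
  rintro _ ⟨j, rfl⟩
  exact ⟨jj j, rfl⟩

end Series

end Pool.Agent.H53.FT867
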